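import Mathlib

/-!
# Bounded-length Maker wins in the generalised van der Waerden game

For every `n` there is a number `C n` such that for every set `S` of `n` natural numbers, Maker wins
the game `G(S)` with at most `C n` moves of his own.

Let `ι` be the index set given by the Hales-Jewett theorem for words over an alphabet with `n` letters
and two colours. For `S = {s_1 < ... < s_n}` let `F` be the set of all sums `∑ i, s_(x i)`,
`x : ι → {1, ..., n}`. It has at most `n ^ |ι|` elements and every 2-colouring of `F` contains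
a monochromatic copy `a S + b`, `a ≥ 1` (the image of a monochromatic combinatorial line). So the game
restricted to the finite board `F` cannot end with both players hitting all copies, and Maker wins it
by strategy stealing, in at most `|F|` moves.
-/

set_option autoImplicit false

namespace Pool.Agent.Results.MP_3e1131_co.BoundedMaker

/-- `M` contains a copy `a S + b` of `S`, with `a ≥ 1` and `b` an integer. -/
def HasCopy (S M : Finset ℕ) : Prop :=
  ∃ a : ℕ, 1 ≤ a ∧ ∃ b : ℤ, ∀ s ∈ S, ∃ m ∈ M, (m : ℤ) = (a : ℤ) * (s : ℤ) + b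

/-- `WinsIn S N M B`: in the game `G(S)` on the natural numbers, with the numbers in `M` claimed by
Maker, the numbers in `B` claimed by Breaker, and Maker to move, Maker can force a win with at most
`N` further moves of his own. -/
def WinsIn (S : Finset ℕ) : ℕ → Finset ℕ → Finset ℕ → Prop
  | 0, M, _ => HasCopy S M
  | N + 1, M, B => HasCopy S M ∨ ∃ x, x ∉ M ∧ x ∉ B ∧
      ∀ y, y ∉ insert x M → y ∉ B → WinsIn S N (insert x M) (insert y B)

/-- The auxiliary game on a finite board `F` in which Breaker may pass. -/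
def FW (F S : Finset ℕ) : ℕ → Finset ℕ → Finset ℕ → Prop
  | 0, P, _ => HasCopy S P
  | k + 1, P, Q => HasCopy S P ∨ ∃ x ∈ F, x ∉ P ∧ x ∉ Q ∧ FW F S k (insert x P) Q ∧
      ∀ y ∈ F, y ∉ insert x P → y ∉ Q → FW F S k (insert x P) (insert y Q)

theorem FW_anti (F S : Finset ℕ) : ∀ (k : ℕ) (P Q Q' : Finset ℕ), Q ⊆ Q' → FW F S k P Q' → FW F S k P Q := by
  intro k
  induction k with
  | zero => intro P Q Q' _ h; exact h
  | succ k ih =>
    intro P Q Q' hQ h
    rcases h with h | ⟨x, hxF, hxP, hxQ, hpass, hy⟩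
    · exact Or.inl h
    · refine Or.inr ⟨x, hxF, hxP, fun hx => hxQ (hQ hx), ih _ _ _ hQ hpass, ?_⟩
      intro y hyF hyP _
      by_cases hyQ' : y ∈ Q'
      · exact ih _ _ _ (Finset.insert_subset hyQ' hQ) hpass
      · exact ih _ _ _ (Finset.insert_subset_insert _ hQ) (hy y hyF hyP hyQ')

theorem FW_of_hasCopy (F S : Finset ℕ) (k : ℕ) (P Q : Finset ℕ) (h : HasCopy S P) : FW F S k P Q := by
  cases k with
  | zero => exact h
  | succ k => exact Or.inl h

theorem FW_succ (F S : Finset ℕ) : ∀ (k : ℕ) (P Q : Finset ℕ), FW F S k P Q → FW F S (k + 1) P Q := by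
  intro k
  induction k with
  | zero => intro P Q h; exact Or.inl h
  | succ k ih =>
    intro P Q h
    rcases h with h | ⟨x, hxF, hxP, hxQ, hpass, hy⟩
    · exact Or.inl h
    · exact Or.inr ⟨x, hxF, hxP, hxQ, ih _ _ hpass, fun y h1 h2 h3 => ih _ _ (hy y h1 h2 h3)⟩

/-- Strategy stealing: if neither player can be beaten, there is a final colouring without
monochromatic copies. -/
theorem steal (F S : Finset ℕ) : ∀ (r k : ℕ) (P Q : Finset ℕ), P ⊆ F → Q ⊆ F → Disjoint P Q →
    (F \ (P ∪ Q)).card = r → r ≤ k → ¬ FW F S k P Q →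
    ((r = 0 ∧ ¬ HasCopy S Q) ∨ ∃ x ∈ F, x ∉ P ∧ x ∉ Q ∧ ¬ FW F S (k - 1) Q (insert x P)) →
    ∃ P' Q' : Finset ℕ, P' ∪ Q' = F ∧ Disjoint P' Q' ∧ ¬ HasCopy S P' ∧ ¬ HasCopy S Q' := by
  intro r
  induction r with
  | zero =>
    intro k P Q hP hQ hPQ hr _ h1 h2
    have hF : F \ (P ∪ Q) = ∅ := Finset.card_eq_zero.mp hr
    have hFsub : F ⊆ P ∪ Q := Finset.sdiff_eq_empty_iff_subset.mp hF
    refine ⟨P, Q, Finset.Subset.antisymm (Finset.union_subset hP hQ) hFsub, hPQ,
      fun h => h1 (FW_of_hasCopy F S k P Q h), ?_⟩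
    rcases h2 with ⟨_, h2⟩ | ⟨x, hxF, hxP, hxQ, _⟩
    · exact h2
    · exact absurd (hFsub hxF) (by simp [hxP, hxQ])
  | succ r ih =>
    intro k P Q hP hQ hPQ hr hk h1 h2
    rcases h2 with ⟨h0, _⟩ | ⟨x, hxF, hxP, hxQ, hx⟩
    · omega
    obtain ⟨k, rfl⟩ : ∃ k', k = k' + 1 := ⟨k - 1, by omega⟩
    have hcard : (F \ (Q ∪ insert x P)).card = r := by
      have : F \ (Q ∪ insert x P) = (F \ (P ∪ Q)).erase x := by
        ext z
        simp only [Finset.mem_sdiff, Finset.mem_union, Finset.mem_insert, Finset.mem_erase, not_or]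
        tauto
      rw [this, Finset.card_erase_of_mem (by simp [hxF, hxP, hxQ]), hr]
      rfl
    have hdis : Disjoint Q (insert x P) := by
      rw [Finset.disjoint_insert_right]
      exact ⟨hxQ, hPQ.symm⟩
    simp only [Nat.add_sub_cancel] at hx
    have h1' : ¬ HasCopy S P ∧ ∀ x ∈ F, x ∉ P → x ∉ Q → ¬ FW F S k (insert x P) Q ∨
        ∃ y ∈ F, y ∉ insert x P ∧ y ∉ Q ∧ ¬ FW F S k (insert x P) (insert y Q) := by
      constructor
      · exact fun h => h1 (Or.inl h)
      · intro z hzF hzP hzQ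
        by_contra hcon
        push Not at hcon
        exact h1 (Or.inr ⟨z, hzF, hzP, hzQ, hcon.1, hcon.2⟩)
    have h3 := h1'.2 x hxF hxP hxQ
    have h4 : ¬ FW F S k (insert x P) Q ∨
        ∃ y ∈ F, y ∉ insert x P ∧ y ∉ Q ∧ ¬ FW F S (k - 1) (insert x P) (insert y Q) := by
      rcases h3 with h3 | ⟨y, hyF, hyP, hyQ, hy⟩
      · exact Or.inl h3
      · refine Or.inr ⟨y, hyF, hyP, hyQ, fun h => hy ?_⟩
        cases k with
        | zero => exact h
        | succ k => exact FW_succ F S k _ _ h
    obtain ⟨P', Q', h5, h6, h7, h8⟩ := ih k Q (insert x P) hQ (Finset.insert_subset hxF hP) hdis hcard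
      (by omega) hx (by
        by_cases hr0 : r = 0
        · left
          refine ⟨hr0, fun h => ?_⟩
          rcases h4 with h4 | ⟨y, hyF, hyP, hyQ, hy⟩
          · exact h4 (FW_of_hasCopy F S k _ _ h)
          · exact hy (FW_of_hasCopy F S (k - 1) _ _ h)
        · right
          rcases h4 with h4 | ⟨y, hyF, hyP, hyQ, hy⟩
          · -- there is a free `y`
            have hne : (F \ (Q ∪ insert x P)).Nonempty := by
              rw [← Finset.card_pos, hcard]; omega
            obtain ⟨y, hy⟩ := hne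
            simp only [Finset.mem_sdiff, Finset.mem_union, not_or] at hy
            refine ⟨y, hy.1, hy.2.1, hy.2.2, fun h => h4 ?_⟩
            have h' := FW_anti F S (k - 1) (insert x P) Q (insert y Q) (Finset.subset_insert _ _) h
            obtain ⟨k, rfl⟩ : ∃ k', k = k' + 1 := ⟨k - 1, by omega⟩
            exact FW_succ F S k _ _ h'
          · exact ⟨y, hyF, hyQ, hyP, hy⟩)
    exact ⟨P', Q', h5, h6, h7, h8⟩

/-- If every 2-colouring of the board `F` has a monochromatic copy, the first player wins on `F`. -/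
theorem first_wins (F S : Finset ℕ) (hne : F.Nonempty)
    (hF : ∀ P Q : Finset ℕ, P ∪ Q = F → Disjoint P Q → HasCopy S P ∨ HasCopy S Q) :
    FW F S F.card ∅ ∅ := by
  by_contra hcon
  obtain ⟨x, hx⟩ := hne
  have hpos : 1 ≤ F.card := Finset.card_pos.mpr ⟨x, hx⟩
  obtain ⟨P', Q', h5, h6, h7, h8⟩ := steal F S F.card F.card ∅ ∅ (by simp) (by simp) (by simp) (by simp)
    le_rfl hcon (Or.inr ⟨x, hx, by simp, by simp, fun h => hcon (by
      have h' := FW_anti F S (F.card - 1) ∅ ∅ (insert x ∅) (by simp) h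
      have h'' := FW_succ F S _ _ _ h'
      rwa [Nat.sub_add_cancel hpos] at h'')⟩)
  rcases hF P' Q' h5 h6 with h | h
  · exact h7 h
  · exact h8 h

/-- A win on the board `F` is a win on the board of all natural numbers. -/
theorem winsIn_of_FW (F S : Finset ℕ) : ∀ (k : ℕ) (P Q Q' : Finset ℕ), (∀ z ∈ Q', z ∈ F → z ∈ Q) →
    FW F S k P Q → WinsIn S k P Q' := by
  intro k
  induction k with
  | zero => intro P Q Q' _ h; exact h
  | succ k ih =>
    intro P Q Q' hQ h
    rcases h with h | ⟨x, hxF, hxP, hxQ, hpass, hy⟩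
    · exact Or.inl h
    · refine Or.inr ⟨x, hxP, fun hx => hxQ (hQ x hx hxF), ?_⟩
      intro y hyP hyQ'
      by_cases hyF : y ∈ F
      · by_cases hyQ : y ∈ Q
        · refine ih _ _ _ ?_ hpass
          intro z hz hzF
          rcases Finset.mem_insert.mp hz with rfl | hz
          · exact hyQ
          · exact hQ z hz hzF
        · refine ih _ _ _ ?_ (hy y hyF hyP hyQ)
          intro z hz hzF
          rcases Finset.mem_insert.mp hz with rfl | hz
          · exact Finset.mem_insert_self _ _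
          · exact Finset.mem_insert_of_mem (hQ z hz hzF)
      · refine ih _ _ _ ?_ hpass
        intro z hz hzF
        rcases Finset.mem_insert.mp hz with rfl | hz
        · exact absurd hzF hyF
        · exact hQ z hz hzF

theorem winsIn_succ (S : Finset ℕ) : ∀ (k : ℕ) (P Q : Finset ℕ), WinsIn S k P Q → WinsIn S (k + 1) P Q := by
  intro k
  induction k with
  | zero => intro P Q h; exact Or.inl h
  | succ k ih =>
    intro P Q h
    rcases h with h | ⟨x, hxP, hxQ, hy⟩
    · exact Or.inl h
    · exact Or.inr ⟨x, hxP, hxQ, fun y h2 h3 => ih _ _ (hy y h2 h3)⟩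

theorem winsIn_mono (S : Finset ℕ) {k l : ℕ} (h : k ≤ l) (P Q : Finset ℕ) (hk : WinsIn S k P Q) :
    WinsIn S l P Q := by
  induction h with
  | refl => exact hk
  | step _ ih => exact winsIn_succ S _ _ _ ih

/-- The board coming from the Hales-Jewett theorem. -/
theorem board (n : ℕ) : ∃ N : ℕ, ∀ S : Finset ℕ, S.card = n → ∃ F : Finset ℕ, F.card ≤ N ∧ F.Nonempty ∧
    ∀ P Q : Finset ℕ, P ∪ Q = F → Disjoint P Q → HasCopy S P ∨ HasCopy S Q := by
  classical
  rcases Nat.eq_zero_or_pos n with rfl | hn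
  · refine ⟨1, fun S hS => ⟨{0}, by simp, by simp, fun P Q _ _ => Or.inl ⟨1, le_rfl, 0, ?_⟩⟩⟩
    rw [Finset.card_eq_zero.mp hS]
    simp
  obtain ⟨ι, _, hι⟩ := Combinatorics.Line.exists_mono_in_high_dimension (Fin n) Bool
  refine ⟨Fintype.card (ι → Fin n), fun S hS => ?_⟩
  let e : Fin n → ℕ := fun i => S.orderEmbOfFin hS i
  let Φ : (ι → Fin n) → ℕ := fun x => ∑ i, e (x i)
  have : Nonempty (ι → Fin n) := ⟨fun _ => ⟨0, hn⟩⟩
  refine ⟨Finset.univ.image Φ, (Finset.card_image_le).trans (by simp), Finset.univ_nonempty.image Φ, ?_⟩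
  intro P Q hPQ hdis
  obtain ⟨l, c, hl⟩ := hι (fun x => decide (Φ x ∈ P))
  -- the copy given by the line `l`
  have key : ∀ M : Finset ℕ, (∀ t : Fin n, Φ (l t) ∈ M) → HasCopy S M := by
    intro M hM
    refine ⟨(Finset.univ.filter fun i => l.idxFun i = none).card, ?_,
      ∑ i, ((l.idxFun i).elim 0 (fun c => (e c : ℤ))), ?_⟩
    · obtain ⟨i, hi⟩ := l.proper
      exact Finset.card_pos.mpr ⟨i, by simp [hi]⟩
    · intro s hs
      have hs' : s ∈ Set.range (S.orderEmbOfFin hS) := by
        rw [Finset.range_orderEmbOfFin]; exact hs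
      obtain ⟨t, rfl⟩ := hs'
      refine ⟨Φ (l t), hM t, ?_⟩
      have h1 : ∀ i, (e (l t i) : ℤ) = (if l.idxFun i = none then (e t : ℤ) else 0) +
          (l.idxFun i).elim 0 (fun c => (e c : ℤ)) := by
        intro i
        rw [Combinatorics.Line.apply_def]
        cases h : l.idxFun i with
        | none => simp [h]
        | some c => simp [h]
      simp only [Φ]
      push_cast
      rw [Finset.sum_congr rfl (fun i _ => h1 i), Finset.sum_add_distrib, Finset.sum_ite]
      simp [e]
  cases c with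
  | true =>
    left
    refine key P fun t => ?_
    have := hl t
    simpa using this
  | false =>
    right
    refine key Q fun t => ?_
    have h1 : Φ (l t) ∉ P := by
      have := hl t
      simpa using this
    have h2 : Φ (l t) ∈ P ∪ Q := by
      rw [hPQ]; exact Finset.mem_image_of_mem _ (Finset.mem_univ _)
    rcases Finset.mem_union.mp h2 with h | h
    · exact absurd h h1
    · exact h

/-- **Maker wins `G(S)` in a number of moves that depends on `|S|` only.** -/
theorem result : ∃ C : ℕ → ℕ, ∀ n : ℕ, 1 ≤ n → ∀ S : Finset ℕ, S.card = n → WinsIn S (C n) ∅ ∅ := by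
  choose C hC using board
  refine ⟨C, fun n _ S hS => ?_⟩
  obtain ⟨F, hF, hne, hcol⟩ := hC n S hS
  exact winsIn_mono S hF _ _ (winsIn_of_FW F S _ _ _ _ (by simp) (first_wins F S hne hcol))

end Pool.Agent.Results.MP_3e1131_co.BoundedMaker
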